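import Pool.Agent.helper91.SI.Spec5

set_option autoImplicit false

namespace Pool.Agent.helper91.SI

open Pool.Agent.helper20.IG (IsIndepDom IsISet iGraph)

section

variable {V : Type} [DecidableEq V] (G : SimpleGraph V) (K : Set V) (X : Finset V)

open scoped Classical in
/-- put together -/
noncomputable def EMB_up (T : Finset K) : Finset V :=
  T.map (Function.Embedding.subtype _) ∪ X.filter (· ∉ K)

open scoped Classical in
/-- restrict -/
noncomputable def EMB_dn (Y : Finset V) : Finset K := Y.subtype (· ∈ K)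

/-- agrees with `X` outside `K` -/
def EMB_ag (Y : Finset V) : Prop := ∀ z, z ∉ K → (z ∈ Y ↔ z ∈ X)

theorem EMB_mem_up (T : Finset K) (z : V) :
    z ∈ EMB_up K X T ↔ (∃ h : z ∈ K, (⟨z, h⟩ : K) ∈ T) ∨ (z ∈ X ∧ z ∉ K) := by
  classical
  unfold EMB_up
  rw [Finset.mem_union, Finset.mem_map, Finset.mem_filter]
  constructor
  · rintro (⟨a, ha, rfl⟩ | h)
    · exact Or.inl ⟨a.2, ha⟩
    · exact Or.inr h
  · rintro (⟨h, ha⟩ | h)
    · exact Or.inl ⟨⟨z, h⟩, ha, rfl⟩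
    · exact Or.inr h

theorem EMB_mem_dn (Y : Finset V) (z : K) : z ∈ EMB_dn K Y ↔ (z : V) ∈ Y := by
  classical
  unfold EMB_dn
  exact Finset.mem_subtype

theorem EMB_mem_up_in (T : Finset K) (z : K) : (z : V) ∈ EMB_up K X T ↔ z ∈ T := by
  rw [EMB_mem_up]
  constructor
  · rintro (⟨_, h⟩ | ⟨_, h⟩)
    · exact h
    · exact absurd z.2 h
  · intro h
    exact Or.inl ⟨z.2, h⟩

theorem EMB_ag_up (T : Finset K) : EMB_ag K X (EMB_up K X T) := by
  intro z hz
  rw [EMB_mem_up]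
  constructor
  · rintro (⟨h, _⟩ | ⟨h, _⟩)
    · exact absurd h hz
    · exact h
  · intro h
    exact Or.inr ⟨h, hz⟩

theorem EMB_dn_up (T : Finset K) : EMB_dn K (EMB_up K X T) = T := by
  ext z
  rw [EMB_mem_dn, EMB_mem_up_in]

theorem EMB_up_dn (Y : Finset V) (hY : EMB_ag K X Y) : EMB_up K X (EMB_dn K Y) = Y := by
  ext z
  by_cases hz : z ∈ K
  · have := EMB_mem_up_in K X (EMB_dn K Y) ⟨z, hz⟩
    rw [EMB_mem_dn] at this
    exact this
  · rw [(EMB_ag_up K X (EMB_dn K Y)) z hz, hY z hz]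

theorem EMB_card (Y : Finset V) (hY : EMB_ag K X Y) : ∃ c : ℕ, (∀ Z : Finset V, EMB_ag K X Z →
    Z.card = (EMB_dn K Z).card + c) ∧ Y.card = (EMB_dn K Y).card + c := by
  classical
  have key : ∀ Z : Finset V, EMB_ag K X Z → Z.card = (EMB_dn K Z).card + (X.filter (· ∉ K)).card := by
    intro Z hZ
    have h1 : (Z.filter (· ∉ K)) = X.filter (· ∉ K) := by
      ext z
      rw [Finset.mem_filter, Finset.mem_filter]
      constructor
      · rintro ⟨h, hz⟩
        exact ⟨(hZ z hz).1 h, hz⟩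
      · rintro ⟨h, hz⟩
        exact ⟨(hZ z hz).2 h, hz⟩
    have h2 : (EMB_dn K Z).card = (Z.filter (· ∈ K)).card := by
      unfold EMB_dn
      rw [Finset.card_subtype]
    rw [h2, ← h1]
    exact (Finset.card_filter_add_card_filter_not (s := Z) (· ∈ K)).symm
  exact ⟨_, key, key Y hY⟩

theorem EMB_dom (hK : Clo G K) (hX : IsIndepDom G X) (Y : Finset V) (hY : EMB_ag K X Y) :
    IsIndepDom G Y ↔ IsIndepDom (G.induce K) (EMB_dn K Y) := by
  constructor
  · rintro ⟨h1, h2⟩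
    refine ⟨fun u hu v hv h => ?_, fun v hv => ?_⟩
    · exact h1 u ((EMB_mem_dn K Y u).1 hu) v ((EMB_mem_dn K Y v).1 hv) h
    · obtain ⟨u, hu, huv⟩ := h2 v (fun h => hv ((EMB_mem_dn K Y v).2 h))
      have huK : u ∈ K := (hK v u huv.symm).1 v.2
      exact ⟨⟨u, huK⟩, (EMB_mem_dn K Y ⟨u, huK⟩).2 hu, huv⟩
  · rintro ⟨h1, h2⟩
    refine ⟨fun u hu v hv h => ?_, fun v hv => ?_⟩
    · by_cases huK : u ∈ K
      · have hvK : v ∈ K := (hK u v h).1 huK
        exact h1 ⟨u, huK⟩ ((EMB_mem_dn K Y ⟨u, huK⟩).2 hu) ⟨v, hvK⟩ ((EMB_mem_dn K Y ⟨v, hvK⟩).2 hv) h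
      · have hvK : v ∉ K := fun hh => huK ((hK u v h).2 hh)
        exact hX.1 u ((hY u huK).1 hu) v ((hY v hvK).1 hv) h
    · by_cases hvK : v ∈ K
      · obtain ⟨u, hu, huv⟩ := h2 ⟨v, hvK⟩ (fun h => hv ((EMB_mem_dn K Y ⟨v, hvK⟩).1 h))
        exact ⟨u, (EMB_mem_dn K Y u).1 hu, huv⟩
      · obtain ⟨u, hu, huv⟩ := hX.2 v (fun h => hv ((hY v hvK).2 h))
        have huK : u ∉ K := fun hh => hvK ((hK u v huv).1 hh)
        exact ⟨u, (hY u huK).2 hu, huv⟩

theorem EMB_iset (hK : Clo G K) (hX : IsISet G X) (Y : Finset V) (hY : EMB_ag K X Y) :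
    IsISet G Y ↔ IsISet (G.induce K) (EMB_dn K Y) := by
  have hXX : EMB_ag K X X := fun z _ => Iff.rfl
  obtain ⟨c, hc, _⟩ := EMB_card K X Y hY
  constructor
  · rintro ⟨h1, h2⟩
    refine ⟨(EMB_dom G K X hK hX.1 Y hY).1 h1, fun T hT => ?_⟩
    have hU : IsIndepDom G (EMB_up K X T) := by
      rw [EMB_dom G K X hK hX.1 _ (EMB_ag_up K X T), EMB_dn_up]
      exact hT
    have h3 := h2 _ hU
    rw [hc Y hY, hc _ (EMB_ag_up K X T), EMB_dn_up] at h3
    omega
  · rintro ⟨h1, h2⟩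
    refine ⟨(EMB_dom G K X hK hX.1 Y hY).2 h1, fun T hT => ?_⟩
    have h3 := h2 _ ((EMB_dom G K X hK hX.1 X hXX).1 hX.1)
    have h4 := hX.2 T hT
    have h5 := hc Y hY
    have h6 := hc X hXX
    omega

theorem EMB_slide (T : Finset K) (u v : K) :
    EMB_up K X (insert v (T.erase u)) = insert (v : V) ((EMB_up K X T).erase (u : V)) := by
  ext z
  by_cases hz : z ∈ K
  · have h1 := EMB_mem_up_in K X (insert v (T.erase u)) ⟨z, hz⟩
    have h2 := EMB_mem_up_in K X T ⟨z, hz⟩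
    rw [h1, Finset.mem_insert, Finset.mem_insert, Finset.mem_erase, Finset.mem_erase, h2]
    rw [Subtype.ext_iff, Ne, Subtype.ext_iff]
  · have h1 := EMB_ag_up K X (insert v (T.erase u)) z hz
    have h2 := EMB_ag_up K X T z hz
    rw [h1, Finset.mem_insert, Finset.mem_erase, h2]
    have e1 : z ≠ v := fun h => hz (h ▸ v.2)
    have e2 : z ≠ u := fun h => hz (h ▸ u.2)
    constructor
    · intro h
      exact Or.inr ⟨e2, h⟩
    · rintro (h | h)
      · exact absurd h e1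
      · exact h.2

end

theorem EMB : EMB_stmt := by
  intro V _ G K X hK
  have hI : ∀ T : {S : Finset K // IsISet (G.induce K) S}, IsISet G (EMB_up K X.1 T.1) := by
    intro T
    rw [EMB_iset G K X.1 hK X.2 _ (EMB_ag_up K X.1 T.1), EMB_dn_up]
    exact T.2
  refine ⟨{ toFun := fun T => ⟨⟨EMB_up K X.1 T.1, hI T⟩, EMB_ag_up K X.1 T.1⟩
            invFun := fun Y => ⟨EMB_dn K Y.1.1, (EMB_iset G K X.1 hK X.2 _ Y.2).1 Y.1.2⟩
            left_inv := fun T => Subtype.ext (EMB_dn_up K X.1 T.1)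
            right_inv := fun Y => Subtype.ext (Subtype.ext (EMB_up_dn K X.1 Y.1.1 Y.2))
            map_rel_iff' := ?_ }⟩
  intro T T'
  constructor
  · rintro ⟨hne, u, hu, v, hv, huv, he⟩
    have huK : u ∈ K := by
      by_contra huK
      have h1 : u ∈ X.1 := (EMB_ag_up K X.1 T.1 u huK).1 hu
      have h2 : u ∈ EMB_up K X.1 T'.1 := (EMB_ag_up K X.1 T'.1 u huK).2 h1
      have he' : EMB_up K X.1 T'.1 = insert v ((EMB_up K X.1 T.1).erase u) := he
      rw [he', Finset.mem_insert, Finset.mem_erase] at h2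
      rcases h2 with h2 | h2
      · exact G.loopless.irrefl _ (h2 ▸ huv)
      · exact h2.1 rfl
    have hvK : v ∈ K := (hK u v huv).1 huK
    refine ⟨fun h => hne (by rw [h]), ⟨u, huK⟩, (EMB_mem_up_in K X.1 T.1 ⟨u, huK⟩).1 hu, ⟨v, hvK⟩,
      (EMB_mem_up_in K X.1 T'.1 ⟨v, hvK⟩).1 hv, huv, ?_⟩
    have he' : EMB_up K X.1 T'.1 = insert v ((EMB_up K X.1 T.1).erase u) := he
    have h3 := EMB_slide K X.1 T.1 ⟨u, huK⟩ ⟨v, hvK⟩
    rw [← he'] at h3
    have h4 := congrArg (EMB_dn K) h3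
    rw [EMB_dn_up, EMB_dn_up] at h4
    exact h4.symm
  · rintro ⟨hne, u, hu, v, hv, huv, he⟩
    refine ⟨fun h => hne ?_, u, (EMB_mem_up_in K X.1 T.1 u).2 hu, v, (EMB_mem_up_in K X.1 T'.1 v).2 hv,
      huv, ?_⟩
    · have h1 : EMB_up K X.1 T.1 = EMB_up K X.1 T'.1 := congrArg Subtype.val h
      have h2 := congrArg (EMB_dn K) h1
      rw [EMB_dn_up, EMB_dn_up] at h2
      exact Subtype.ext h2
    · show EMB_up K X.1 T'.1 = insert (v : V) ((EMB_up K X.1 T.1).erase (u : V))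
      rw [he, EMB_slide]

end Pool.Agent.helper91.SI
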