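import Pool.Agent.helper91.SI.Spec2

set_option autoImplicit false

namespace Pool.Agent.helper91.SI

open Pool.Agent.helper20.IG (IsIndepDom IsISet iGraph)

def TH2_X {V : Type} (G : SimpleGraph V) (S : Finset V) (s t x : V) : Prop :=
  G.Adj s x ∧ G.Adj t x ∧ ∀ u ∈ S, G.Adj u x → u = s ∨ u = t

theorem TH2_X_symm {V : Type} {G : SimpleGraph V} {S : Finset V} {s t x : V} (h : TH2_X G S s t x) :
    TH2_X G S t s x := ⟨h.2.1, h.1, fun u hu hx => (h.2.2 u hu hx).symm⟩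

/-- token with private neighbour -/
def TH2_P {V : Type} (G : SimpleGraph V) (S : Finset V) (s v : V) : Prop :=
  s ∈ S ∧ v ∉ S ∧ G.Adj s v ∧ ∀ t ∈ S, G.Adj t v → t = s

theorem TH2_seven {V : Type} {G : SimpleGraph V} {a0 a1 a2 a3 a4 a5 a6 y : V}
    (hn : [a0, a1, a2, a3, a4, a5, a6, y].Nodup)
    (h01 : G.Adj a0 a1) (h12 : G.Adj a1 a2) (h23 : G.Adj a2 a3) (h34 : G.Adj a3 a4)
    (h45 : G.Adj a4 a5) (h56 : G.Adj a5 a6) (h60 : G.Adj a6 a0) (hy : G.Adj a0 y) : P1 G := by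
  simp only [List.nodup_cons, List.mem_cons, List.not_mem_nil, or_false, not_or, not_false_eq_true,
    List.nodup_nil, and_true] at hn
  obtain ⟨⟨n01, n02, n03, n04, n05, n06, n0y⟩, ⟨n12, n13, n14, n15, n16, n1y⟩,
    ⟨n23, n24, n25, n26, n2y⟩, ⟨n34, n35, n36, n3y⟩, ⟨n45, n46, n4y⟩, ⟨n56, n5y⟩, n6y⟩ := hn
  refine ⟨(![a0, a1, a2, a3, a4, a5, a6] : Fin 7 → V), y, ⟨?_, ?_⟩, ?_, hy⟩
  · intro i j hij
    change Fin 7 at i j
    revert hij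
    fin_cases i <;> fin_cases j <;> intro hij <;> first
      | rfl
      | exact absurd hij n01 | exact absurd hij n02 | exact absurd hij n03 | exact absurd hij n04
      | exact absurd hij n05 | exact absurd hij n06 | exact absurd hij n12 | exact absurd hij n13
      | exact absurd hij n14 | exact absurd hij n15 | exact absurd hij n16 | exact absurd hij n23
      | exact absurd hij n24 | exact absurd hij n25 | exact absurd hij n26 | exact absurd hij n34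
      | exact absurd hij n35 | exact absurd hij n36 | exact absurd hij n45 | exact absurd hij n46
      | exact absurd hij n56
      | exact absurd hij.symm n01 | exact absurd hij.symm n02 | exact absurd hij.symm n03 | exact absurd hij.symm n04
      | exact absurd hij.symm n05 | exact absurd hij.symm n06 | exact absurd hij.symm n12 | exact absurd hij.symm n13
      | exact absurd hij.symm n14 | exact absurd hij.symm n15 | exact absurd hij.symm n16 | exact absurd hij.symm n23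
      | exact absurd hij.symm n24 | exact absurd hij.symm n25 | exact absurd hij.symm n26 | exact absurd hij.symm n34
      | exact absurd hij.symm n35 | exact absurd hij.symm n36 | exact absurd hij.symm n45 | exact absurd hij.symm n46
      | exact absurd hij.symm n56
  · intro k
    change Fin 7 at k
    fin_cases k
    · exact h01
    · exact h12
    · exact h23
    · exact h34
    · exact h45
    · exact h56
    · exact h60
  · intro k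
    change Fin 7 at k
    fin_cases k
    · exact Ne.symm n0y
    · exact Ne.symm n1y
    · exact Ne.symm n2y
    · exact Ne.symm n3y
    · exact Ne.symm n4y
    · exact Ne.symm n5y
    · exact Ne.symm n6y

theorem TH2_nd6 {V : Type} {a b c d e f : V} (h1 : a ≠ b) (h2 : a ≠ c) (h3 : a ≠ d) (h4 : a ≠ e)
    (h5 : a ≠ f) (h6 : b ≠ c) (h7 : b ≠ d) (h8 : b ≠ e) (h9 : b ≠ f) (h10 : c ≠ d) (h11 : c ≠ e)
    (h12 : c ≠ f) (h13 : d ≠ e) (h14 : d ≠ f) (h15 : e ≠ f) : [a, b, c, d, e, f].Nodup := by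
  simp only [List.nodup_cons, List.mem_cons, List.not_mem_nil, or_false, not_or, not_false_eq_true,
    List.nodup_nil, and_true]
  exact ⟨⟨h1, h2, h3, h4, h5⟩, ⟨h6, h7, h8, h9⟩, ⟨h10, h11, h12⟩, ⟨h13, h14⟩, h15⟩

theorem TH2_vv {V : Type} {G : SimpleGraph V} {S : Finset V} {s v t w : V}
    (h : TH2_P G S s v) (h' : TH2_P G S t w) (hst : s ≠ t) : v ≠ w := by
  rintro rfl
  exact hst (h'.2.2.2 s h.1 h.2.2.1)

theorem TH2_sv {V : Type} {G : SimpleGraph V} {S : Finset V} {s v t w : V}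
    (h : TH2_P G S s v) (h' : TH2_P G S t w) : s ≠ w := by
  rintro rfl
  exact h'.2.1 h.1

theorem TH2_xv {V : Type} {G : SimpleGraph V} {S : Finset V} {s t x r v : V} (hs : s ∈ S) (ht : t ∈ S)
    (hst : s ≠ t) (hx : TH2_X G S s t x) (h : TH2_P G S r v) : x ≠ v := by
  rintro rfl
  exact hst ((h.2.2.2 s hs hx.1).trans (h.2.2.2 t ht hx.2.1).symm)

theorem TH2_xs {V : Type} {G : SimpleGraph V} {S : Finset V} {s t x r : V}
    (hI : ∀ u ∈ S, ∀ v ∈ S, ¬ G.Adj u v) (hs : s ∈ S)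
    (hx : TH2_X G S s t x) (hr : r ∈ S) : x ≠ r := by
  rintro rfl
  exact hI s hs x hr hx.1

theorem TH2_xx {V : Type} {G : SimpleGraph V} {S : Finset V} {s t r x y q : V}
    (hx : TH2_X G S s t x) (hy : TH2_X G S r q y) (hr : r ∈ S) (h1 : r ≠ s) (h2 : r ≠ t) : x ≠ y := by
  rintro rfl
  rcases hx.2.2 r hr hy.1 with h | h
  · exact h1 h
  · exact h2 h

theorem TH2_B {V : Type} {G : SimpleGraph V} {S : Finset V} {s1 v1 s2 v2 s3 v3 x : V}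
    (hI : ∀ u ∈ S, ∀ v ∈ S, ¬ G.Adj u v) (h6 : NoC6 G)
    (p1 : TH2_P G S s1 v1) (p2 : TH2_P G S s2 v2) (p3 : TH2_P G S s3 v3)
    (h12 : s1 ≠ s2) (h13 : s1 ≠ s3) (h23 : s2 ≠ s3)
    (a12 : G.Adj v1 v2) (a23 : G.Adj v2 v3) (hx : TH2_X G S s1 s3 x) : False := by
  refine h6 s1 v1 v2 v3 s3 x ?_ p1.2.2.1 a12 a23 p3.2.2.1.symm hx.2.1 hx.1.symm
  exact TH2_nd6 (TH2_sv p1 p1) (TH2_sv p1 p2) (TH2_sv p1 p3) h13 (TH2_xs hI p1.1 hx p1.1).symm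
    (TH2_vv p1 p2 h12) (TH2_vv p1 p3 h13) (TH2_sv p3 p1).symm (TH2_xv p1.1 p3.1 h13 hx p1).symm
    (TH2_vv p2 p3 h23) (TH2_sv p3 p2).symm (TH2_xv p1.1 p3.1 h13 hx p2).symm
    (TH2_sv p3 p3).symm (TH2_xv p1.1 p3.1 h13 hx p3).symm (TH2_xs hI p1.1 hx p3.1).symm

theorem TH2_D {V : Type} {G : SimpleGraph V} {S : Finset V} {s1 v1 s2 v2 s3 v3 x y z : V}
    (hI : ∀ u ∈ S, ∀ v ∈ S, ¬ G.Adj u v) (h6 : NoC6 G)
    (p1 : TH2_P G S s1 v1) (p2 : TH2_P G S s2 v2) (p3 : TH2_P G S s3 v3)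
    (h12 : s1 ≠ s2) (h13 : s1 ≠ s3) (h23 : s2 ≠ s3)
    (hx : TH2_X G S s1 s2 x) (hy : TH2_X G S s2 s3 y) (hz : TH2_X G S s1 s3 z) : False := by
  refine h6 s1 x s2 y s3 z ?_ hx.1 hx.2.1.symm hy.1 hy.2.1.symm hz.2.1 hz.1.symm
  exact TH2_nd6 (TH2_xs hI p1.1 hx p1.1).symm h12 (TH2_xs hI p2.1 hy p1.1).symm h13
    (TH2_xs hI p1.1 hz p1.1).symm
    (TH2_xs hI p1.1 hx p2.1) (TH2_xx (TH2_X_symm hx) (TH2_X_symm hy) p3.1 h23.symm h13.symm)
    (TH2_xs hI p1.1 hx p3.1) (TH2_xx hx (TH2_X_symm hz) p3.1 h13.symm h23.symm)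
    (TH2_xs hI p2.1 hy p2.1).symm h23 (TH2_xs hI p1.1 hz p2.1).symm
    (TH2_xs hI p2.1 hy p3.1) (TH2_xx hy hz p1.1 h12 h13)
    (TH2_xs hI p1.1 hz p3.1).symm

theorem TH2_C {V : Type} {G : SimpleGraph V} {S : Finset V} {s1 v1 s2 v2 s3 v3 x y : V}
    (hI : ∀ u ∈ S, ∀ v ∈ S, ¬ G.Adj u v)
    (p1 : TH2_P G S s1 v1) (p2 : TH2_P G S s2 v2) (p3 : TH2_P G S s3 v3)
    (h12 : s1 ≠ s2) (h13 : s1 ≠ s3) (h23 : s2 ≠ s3)
    (a12 : G.Adj v1 v2) (hx : TH2_X G S s1 s3 x) (hy : TH2_X G S s2 s3 y) : P1 G := by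
  refine TH2_seven (a0 := s3) (a1 := x) (a2 := s1) (a3 := v1) (a4 := v2) (a5 := s2) (a6 := y) (y := v3)
    ?_ hx.2.1 hx.1.symm p1.2.2.1 a12 p2.2.2.1.symm hy.1 hy.2.1.symm p3.2.2.1
  simp only [List.nodup_cons, List.mem_cons, List.not_mem_nil, or_false, not_or, not_false_eq_true,
    List.nodup_nil, and_true]
  have e1 := TH2_xs hI p1.1 hx p1.1
  have e2 := TH2_xs hI p1.1 hx p2.1
  have e3 := TH2_xs hI p1.1 hx p3.1
  have f1 := TH2_xs hI p2.1 hy p1.1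
  have f2 := TH2_xs hI p2.1 hy p2.1
  have f3 := TH2_xs hI p2.1 hy p3.1
  have g1 := TH2_xv p1.1 p3.1 h13 hx p1
  have g2 := TH2_xv p1.1 p3.1 h13 hx p2
  have g3 := TH2_xv p1.1 p3.1 h13 hx p3
  have i1 := TH2_xv p2.1 p3.1 h23 hy p1
  have i2 := TH2_xv p2.1 p3.1 h23 hy p2
  have i3 := TH2_xv p2.1 p3.1 h23 hy p3
  have j : x ≠ y := TH2_xx hx hy p2.1 h12.symm h23
  exact ⟨⟨e3.symm, h13.symm, TH2_sv p3 p1, TH2_sv p3 p2, h23.symm, f3.symm, TH2_sv p3 p3⟩,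
    ⟨e1, g1, g2, e2, j, g3⟩,
    ⟨TH2_sv p1 p1, TH2_sv p1 p2, h12, f1.symm, TH2_sv p1 p3⟩,
    ⟨TH2_vv p1 p2 h12, (TH2_sv p2 p1).symm, i1.symm, TH2_vv p1 p3 h13⟩,
    ⟨(TH2_sv p2 p2).symm, i2.symm, TH2_vv p2 p3 h23⟩,
    ⟨f2.symm, TH2_sv p2 p3⟩, i3⟩

theorem TH2 (hSLD : SLD_stmt) : TH2_stmt := by
  intro V _ G S s1 v1 s2 v2 s3 v3 hT h6 l1 l2 l3 h12 h13 h23 c12 c13 c23
  have hI : ∀ u ∈ S, ∀ v ∈ S, ¬ G.Adj u v := l1.1.1.1
  have p1 : TH2_P G S s1 v1 := ⟨l1.2.1, l1.2.2.1, l1.2.2.2.1, (hSLD V G S s1 v1 hT l1).1⟩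
  have p2 : TH2_P G S s2 v2 := ⟨l2.2.1, l2.2.2.1, l2.2.2.2.1, (hSLD V G S s2 v2 hT l2).1⟩
  have p3 : TH2_P G S s3 v3 := ⟨l3.2.1, l3.2.2.1, l3.2.2.2.1, (hSLD V G S s3 v3 hT l3).1⟩
  rcases c12 with a12 | ⟨x12, hx12⟩ <;> rcases c13 with a13 | ⟨x13, hx13⟩ <;>
    rcases c23 with a23 | ⟨x23, hx23⟩
  · exact (hT v1 v2 v3 a12 a23 a13).elim
  · -- v1 v2, v1 v3, x23 : 6-cycle s2 v2 v1 v3 s3 x23
    exact (TH2_B hI h6 p2 p1 p3 h12.symm h23 h13 a12.symm a13 hx23).elim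
  · -- v1 v2, x13, v2 v3
    exact (TH2_B hI h6 p1 p2 p3 h12 h13 h23 a12 a23 hx13).elim
  · -- v1 v2, x13, x23
    exact TH2_C hI p1 p2 p3 h12 h13 h23 a12 hx13 hx23
  · -- x12, v1 v3, v2 v3 : 6-cycle s1 v1 v3 v2 s2 x12
    exact (TH2_B hI h6 p1 p3 p2 h13 h12 h23.symm a13 a23.symm hx12).elim
  · -- x12, v1 v3, x23 : the pair 1 3, third token 2
    exact TH2_C hI p1 p3 p2 h13 h12 h23.symm a13 hx12 (TH2_X_symm hx23)
  · -- x12, x13, v2 v3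
    exact TH2_C hI p2 p3 p1 h23 h12.symm h13.symm a23 (TH2_X_symm hx12) (TH2_X_symm hx13)
  · exact (TH2_D hI h6 p1 p2 p3 h12 h13 h23 hx12 hx23 hx13).elim

end Pool.Agent.helper91.SI
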